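import Pool.Agent.Helper34.Wc.Final

set_option autoImplicit false

namespace Pool.Agent.Results.MP_e4cd9c_an.OneVariable

open MeasureTheory Filter Topology
open scoped ENNReal

/-- The unit circle, as `ℝ / ℤ`: the class of `x` stands for the point `e^{2 π i x}`. -/
abbrev T : Type := AddCircle (1 : ℝ)

/-- Normalised arc length on the circle. -/
noncomputable abbrev mu : Measure T := AddCircle.haarAddCircle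

/-- The point `e^{2 π i t}` of the complex plane. -/
noncomputable def pt (t : T) : ℂ := fourier 1 t

/-- The open unit disc. -/
abbrev disc : Set ℂ := Metric.ball (0 : ℂ) 1

/-- The unit polydisc of `ℂ^d`. -/
def PD (d : ℕ) : Set (Fin d → ℂ) := {z | ∀ i, ‖z i‖ < 1}

/-- The point `r ζ` for `ζ` on the torus `𝕋^d`. -/
noncomputable def tor {d : ℕ} (r : ℝ) (ζ : Fin d → T) : Fin d → ℂ := fun i => (r : ℂ) * pt (ζ i)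

/-- Normalised Haar measure on the torus `𝕋^d`. -/
noncomputable abbrev mud (d : ℕ) : Measure (Fin d → T) := Measure.pi fun _ => mu

/-- The Poisson kernel of the disc. -/
noncomputable def pker (z : ℂ) (t : T) : ℝ := (1 - ‖z‖ ^ 2) / ‖pt t - z‖ ^ 2

/-- The Poisson kernel of the polydisc. -/
noncomputable def PK {d : ℕ} (z : Fin d → ℂ) (ζ : Fin d → T) : ℝ := ∏ i, pker (z i) (ζ i)

/-- The Hardy space `H^p(𝔻^d)`, `0 < p ≤ ∞`. -/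
def MemH {d : ℕ} (p : ℝ≥0∞) (f : (Fin d → ℂ) → ℂ) : Prop :=
  DifferentiableOn ℂ f (PD d) ∧
    (p = ∞ → ∃ M : ℝ, ∀ z ∈ PD d, ‖f z‖ ≤ M) ∧
    (p ≠ ∞ → ∃ C : ℝ, ∀ r ∈ Set.Ioo (0 : ℝ) 1, ∫ ζ, ‖f (tor r ζ)‖ ^ p.toReal ∂(mud d) ≤ C)

/-- Outer functions in `H^p(𝔻^d)`: `g` is the radial boundary function `f^*`, it does not vanish
almost everywhere, `log |f^*|` is integrable, and `log |f|` is its Poisson integral (written with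
`exp`, so that `f` has no zeros). -/
def IsOuter {d : ℕ} (p : ℝ≥0∞) (f : (Fin d → ℂ) → ℂ) : Prop :=
  MemH p f ∧ ∃ g : (Fin d → T) → ℂ,
    (∀ᵐ ζ ∂(mud d), g ζ ≠ 0 ∧ Tendsto (fun r : ℝ => f (tor r ζ)) (𝓝[<] 1) (𝓝 (g ζ))) ∧
    Integrable (fun ζ => Real.log ‖g ζ‖) (mud d) ∧
    ∀ z ∈ PD d, ‖f z‖ = Real.exp (∫ ζ, PK z ζ * Real.log ‖g ζ‖ ∂(mud d))

/-- The Hardy space `H^q(𝔻)`, `0 < q ≤ ∞`. -/
def MemH1 (q : ℝ≥0∞) (F : ℂ → ℂ) : Prop :=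
  DifferentiableOn ℂ F disc ∧
    (q = ∞ → ∃ M : ℝ, ∀ z ∈ disc, ‖F z‖ ≤ M) ∧
    (q ≠ ∞ → ∃ C : ℝ, ∀ r ∈ Set.Ioo (0 : ℝ) 1, ∫ t, ‖F ((r : ℂ) * pt t)‖ ^ q.toReal ∂mu ≤ C)

/-- Outer functions in `H^q(𝔻)`. -/
def IsOuter1 (q : ℝ≥0∞) (F : ℂ → ℂ) : Prop :=
  MemH1 q F ∧ ∃ g : T → ℂ,
    (∀ᵐ t ∂mu, g t ≠ 0 ∧ Tendsto (fun r : ℝ => F ((r : ℂ) * pt t)) (𝓝[<] 1) (𝓝 (g t))) ∧
    Integrable (fun t => Real.log ‖g t‖) mu ∧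
    ∀ z ∈ disc, ‖F z‖ = Real.exp (∫ t, pker z t * Real.log ‖g t‖ ∂mu)

/-- The `j`-th coordinate of `φ` has an angular derivative at the boundary point `ζ`, in the form of
the Julia-Caratheodory theorem: `(1 - |φ_j(r ζ)|) / (1 - r)` does not tend to infinity. -/
def AngDer {d : ℕ} (φ : ℂ → Fin d → ℂ) (j : Fin d) (ζ : T) : Prop :=
  ∃ C : ℝ, ∃ᶠ r : ℝ in 𝓝[<] 1, 1 - ‖φ ((r : ℂ) * pt ζ) j‖ ≤ C * (1 - r)

/-- Two different coordinates of `φ` have angular derivatives at `ζ`. -/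
def Touch {d : ℕ} (φ : ℂ → Fin d → ℂ) (ζ : T) : Prop :=
  ∃ j k, j ≠ k ∧ AngDer φ j ζ ∧ AngDer φ k ζ

/-- In every neighbourhood of the boundary point `ζ`, two different coordinates of `φ` are
simultaneously as close to the unit circle as we wish. -/
def Bad {d : ℕ} (φ : ℂ → Fin d → ℂ) (ζ : T) : Prop :=
  ∀ ρ < (1 : ℝ), ∀ ε > (0 : ℝ), ∃ z ∈ disc, ‖z - pt ζ‖ < ε ∧
    ∃ j k, j ≠ k ∧ ρ < ‖φ z j‖ ∧ ρ < ‖φ z k‖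

/-- Two different coordinates of `φ` have radial limits of modulus one at `ζ`. -/
def Meet {d : ℕ} (φ : ℂ → Fin d → ℂ) (ζ : T) : Prop :=
  ∃ j k, j ≠ k ∧ Tendsto (fun r : ℝ => ‖φ ((r : ℂ) * pt ζ) j‖) (𝓝[<] 1) (𝓝 1) ∧
    Tendsto (fun r : ℝ => ‖φ ((r : ℂ) * pt ζ) k‖) (𝓝[<] 1) (𝓝 1)

/-- The weighted composition operator. -/
def wco {d : ℕ} (ψ : ℂ → ℂ) (φ : ℂ → Fin d → ℂ) (f : (Fin d → ℂ) → ℂ) : ℂ → ℂ :=
  fun z => ψ z * f (φ z)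

/-- The operator preserves outer functions. -/
def Preserves {d : ℕ} (p q : ℝ≥0∞) (ψ : ℂ → ℂ) (φ : ℂ → Fin d → ℂ) : Prop :=
  ∀ f : (Fin d → ℂ) → ℂ, IsOuter p f → IsOuter1 q (wco ψ φ f)

/-- Operators `H^p(𝔻^d) → H^q(𝔻)`. -/
theorem result (d : ℕ) (hd : 1 ≤ d) (p q : ℝ≥0∞) (hp : p ≠ 0) (hq : q ≠ 0) (ψ : ℂ → ℂ)
    (φ : ℂ → Fin d → ℂ) (hφ : DifferentiableOn ℂ φ disc) (hφm : ∀ z ∈ disc, φ z ∈ PD d)
    (hT : ∀ f : (Fin d → ℂ) → ℂ, MemH p f → MemH1 q (wco ψ φ f)) :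
    (Preserves p q ψ φ → IsOuter1 q ψ ∧ ∀ ζ, ¬ Touch φ ζ) ∧
    ({ζ | Bad φ ζ ∧ ¬ Touch φ ζ}.Countable →
      (Preserves p q ψ φ ↔ IsOuter1 q ψ ∧ ∀ ζ, ¬ Touch φ ζ)) ∧
    ((∃ M : ℝ, ∀ z ∈ disc, ∀ w ∈ disc, ‖φ z - φ w‖ ≤ M * ‖z - w‖) →
      (Preserves p q ψ φ ↔ IsOuter1 q ψ ∧ ∀ ζ, ¬ Meet φ ζ)) := by
  refine ⟨fun h => ?_, fun hc => ?_, fun hL => ?_⟩
  · exact Pool.Agent.Helper34.Wc.nec (p := p) (q := q) hφ hφm h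
  · exact Pool.Agent.Helper34.Wc.main (p := p) (q := q) hd hp hq hφ hφm hT hc
  · obtain ⟨M, hM⟩ := hL
    exact Pool.Agent.Helper34.Wc.main_lip (p := p) (q := q) hd hp hq hφ hφm hT hM

end Pool.Agent.Results.MP_e4cd9c_an.OneVariable
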